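import Pool.Agent.helper83.P2.SpecX

set_option autoImplicit false

/-!
# Project p2 (MP_063734_an), block X: row XBD
-/

namespace Pool.Agent.P2

open Metric Set Filter Topology Finset

noncomputable section

section comb
open Classical

private lemma XBD_pt {ι : Type} [Fintype ι] (E : ι → ι → Prop) (x y : Option ι) :
    (if ∃ b b', x = some b ∧ y = some b' ∧ E b b' then (1 : ℝ) else 0) =
      ∑ b, ∑ b', (if E b b' then (if x = some b ∧ y = some b' then (1 : ℝ) else 0) else 0) := by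
  rcases x with _ | b0
  · simp
  · rcases y with _ | b1
    · simp
    · rw [Finset.sum_eq_single b0, Finset.sum_eq_single b1]
      · by_cases h : E b0 b1
        · simp [h]
        · simp [h]
      · intro b _ hb
        have h1 : ¬ (some b0 = some b0 ∧ some b1 = some b) := by
          rintro ⟨-, h⟩
          exact hb (Option.some.inj h).symm
        rw [if_neg h1]
        simp
      · intro h
        exact absurd (Finset.mem_univ _) h
      · intro b _ hb
        apply Finset.sum_eq_zero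
        intro b' _
        have h1 : ¬ (some b0 = some b ∧ some b1 = some b') := by
          rintro ⟨h, -⟩
          exact hb (Option.some.inj h).symm
        rw [if_neg h1]
        simp
      · intro h
        exact absurd (Finset.mem_univ _) h

private lemma XBD_count {ι : Type} [Fintype ι] (E : ι → ι → Prop) (ν : ℕ → Option ι)
    (A B : Finset ℕ) :
    ((#{p ∈ A ×ˢ B | ¬ ∃ b b', ν p.1 = some b ∧ ν p.2 = some b' ∧ E b b'} : ℕ) : ℝ) =
      (#A : ℝ) * #B - ∑ b, ∑ b', (if E b b' then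
        ((#{k ∈ A | ν k = some b} : ℕ) : ℝ) * ((#{k ∈ B | ν k = some b'} : ℕ) : ℝ) else 0) := by
  have h1 : (#{p ∈ A ×ˢ B | ∃ b b', ν p.1 = some b ∧ ν p.2 = some b' ∧ E b b'} : ℕ) +
      (#{p ∈ A ×ˢ B | ¬ ∃ b b', ν p.1 = some b ∧ ν p.2 = some b' ∧ E b b'} : ℕ) = #A * #B := by
    rw [← Finset.card_product]
    exact Finset.card_filter_add_card_filter_not _
  have h2 : ((#{p ∈ A ×ˢ B | ∃ b b', ν p.1 = some b ∧ ν p.2 = some b' ∧ E b b'} : ℕ) : ℝ) =
      ∑ b, ∑ b', (if E b b' then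
        ((#{k ∈ A | ν k = some b} : ℕ) : ℝ) * ((#{k ∈ B | ν k = some b'} : ℕ) : ℝ) else 0) := by
    rw [Finset.card_filter]
    push_cast
    have h3 : ∀ p ∈ A ×ˢ B, (if ∃ b b', ν p.1 = some b ∧ ν p.2 = some b' ∧ E b b' then
        (1 : ℝ) else 0) = ∑ b, ∑ b', (if E b b' then
          (if ν p.1 = some b ∧ ν p.2 = some b' then (1 : ℝ) else 0) else 0) :=
      fun p _ => XBD_pt E (ν p.1) (ν p.2)
    rw [Finset.sum_congr rfl h3, Finset.sum_comm]
    apply Finset.sum_congr rfl
    intro b _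
    rw [Finset.sum_comm]
    apply Finset.sum_congr rfl
    intro b' _
    by_cases hE : E b b'
    · simp only [if_pos hE]
      have h4 : (∑ p ∈ A ×ˢ B, (if ν p.1 = some b ∧ ν p.2 = some b' then (1 : ℝ) else 0)) =
          ((#{p ∈ A ×ˢ B | ν p.1 = some b ∧ ν p.2 = some b'} : ℕ) : ℝ) := by
        rw [Finset.card_filter]
        push_cast
        rfl
      rw [h4, Finset.filter_product (fun k => ν k = some b) (fun k => ν k = some b'),
        Finset.card_product]
      push_cast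
      rfl
    · simp only [if_neg hE]
      rw [Finset.sum_const_zero]
  have h5 : ((#{p ∈ A ×ˢ B | ∃ b b', ν p.1 = some b ∧ ν p.2 = some b' ∧ E b b'} : ℕ) : ℝ) +
      ((#{p ∈ A ×ˢ B | ¬ ∃ b b', ν p.1 = some b ∧ ν p.2 = some b' ∧ E b b'} : ℕ) : ℝ) =
      (#A : ℝ) * #B := by
    exact_mod_cast h1
  rw [← h2, ← h5]
  ring

theorem XBD : XBD_stmt := by
  intro ι _ E ν m i
  have hc := XBD_count E ν (Finset.Ico (2 * i * 2 ^ m) ((2 * i + 1) * 2 ^ m))
    (Finset.Ico ((2 * i + 1) * 2 ^ m) ((2 * i + 2) * 2 ^ m))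
  have hA : #(Finset.Ico (2 * i * 2 ^ m) ((2 * i + 1) * 2 ^ m)) = 2 ^ m := by
    rw [Nat.card_Ico, add_mul, one_mul, Nat.add_sub_cancel_left]
  have hB : #(Finset.Ico ((2 * i + 1) * 2 ^ m) ((2 * i + 2) * 2 ^ m)) = 2 ^ m := by
    rw [Nat.card_Ico]
    have : (2 * i + 2) * 2 ^ m = (2 * i + 1) * 2 ^ m + 2 ^ m := by ring
    rw [this, Nat.add_sub_cancel_left]
  have h4 : ((4 : ℝ) ^ m) = 2 ^ m * 2 ^ m := by
    rw [← mul_pow]
    norm_num
  have hpos : (0 : ℝ) < 2 ^ m := by positivity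
  have hbad : (bad E ν m i : ℝ) = (2 : ℝ) ^ m * 2 ^ m - ∑ b, ∑ b', (if E b b' then
        ((#{k ∈ Finset.Ico (2 * i * 2 ^ m) ((2 * i + 1) * 2 ^ m) | ν k = some b} : ℕ) : ℝ) *
        ((#{k ∈ Finset.Ico ((2 * i + 1) * 2 ^ m) ((2 * i + 2) * 2 ^ m) | ν k = some b'} : ℕ) : ℝ)
        else 0) := by
    rw [hA, hB] at hc
    push_cast at hc
    rw [← hc]
    unfold bad
    refine congrArg (fun s : Finset (ℕ × ℕ) => ((#s : ℕ) : ℝ)) ?_
    apply Finset.ext
    intro p
    simp only [Finset.mem_filter]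
  rw [hbad, h4, sub_div, div_self (by positivity)]
  congr 1
  rw [Finset.sum_div]
  apply Finset.sum_congr rfl
  intro b _
  rw [Finset.sum_div]
  apply Finset.sum_congr rfl
  intro b' _
  by_cases hE : E b b'
  · rw [if_pos hE, if_pos hE]
    unfold Fq
    have h5 : (2 * i + 2) = 2 * i + 1 + 1 := rfl
    rw [h5]
    field_simp
  · rw [if_neg hE, if_neg hE, zero_div]

end comb

end

end Pool.Agent.P2
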